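import Mathlib
import Pool.Agent.Q192.BT.Limit
import Pool.Agent.Q192.BT.Arc

/-!
# Every bounded turning metric tree admits a Lipschitz light map into the real line
-/

set_option autoImplicit false

namespace Pool.Agent.Results.MP_f6f14e_gt.LipschitzLightMap

open Metric

universe u v

/-- `A` is a Jordan arc with the end points `x` and `y`. -/
def IsJordanArc {T : Type u} [TopologicalSpace T] (A : Set T) (x y : T) : Prop :=
  ∃ h : unitInterval ≃ₜ A, (h 0 : T) = x ∧ (h 1 : T) = y

/-- Metric trees: compact, connected, locally connected metric spaces with more than one point in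
which any two distinct points are the end points of a unique Jordan arc. -/
structure IsMetricTree (T : Type u) [MetricSpace T] : Prop where
  compact : CompactSpace T
  connected : ConnectedSpace T
  locallyConnected : LocallyConnectedSpace T
  nontrivial : Nontrivial T
  uniqueArc : ∀ x y : T, x ≠ y → ∃! A : Set T, IsJordanArc A x y

/-- `X` is `B`-bounded turning. -/
def BoundedTurning (B : ℝ) (X : Type u) [MetricSpace X] : Prop :=
  ∀ a b : X, ∃ E : Set X, IsCompact E ∧ IsConnected E ∧ a ∈ E ∧ b ∈ E ∧ diam E ≤ B * dist a b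

/-- The `δ`-component of `x` in `A`: the points joined to `x` by a `δ`-chain inside `A`. -/
def chainComponent {X : Type u} [MetricSpace X] (δ : ℝ) (A : Set X) (x : X) : Set X :=
  {y | ∃ (n : ℕ) (z : ℕ → X), z 0 = x ∧ z n = y ∧ (∀ i ≤ n, z i ∈ A) ∧
    ∀ i < n, dist (z i) (z (i + 1)) ≤ δ}

/-- `f` is Lipschitz light with constant `C`: it is `C`-Lipschitz and, for every bounded set `W`
of positive diameter, every `diam W`-component of the preimage of `W` has diameter at most
`C * diam W`. -/
structure LipschitzLight {X : Type u} {Y : Type v} [MetricSpace X] [MetricSpace Y] (C : ℝ)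
    (f : X → Y) : Prop where
  lipschitz : ∀ x y, dist (f x) (f y) ≤ C * dist x y
  light : ∀ W : Set Y, Bornology.IsBounded W → 0 < diam W → ∀ x ∈ f ⁻¹' W,
    Bornology.IsBounded (chainComponent (diam W) (f ⁻¹' W) x) ∧
      diam (chainComponent (diam W) (f ⁻¹' W) x) ≤ C * diam W

/-- Every bounded turning metric tree admits a Lipschitz light map into the real line, with a
constant that depends only on the bounded turning constant. -/
theorem result : ∀ B : ℝ, 1 ≤ B → ∃ C : ℝ, 1 ≤ C ∧ ∀ (T : Type u) [MetricSpace T],
    IsMetricTree T → BoundedTurning B T → ∃ f : T → ℝ, LipschitzLight C f := by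
  intro B hB
  refine ⟨8000 * (3200 * B + 1), by linarith, ?_⟩
  intro T _ hT hbt
  have := hT.compact
  have := hT.connected
  have := hT.locallyConnected
  have := hT.nontrivial
  have hTr : Q192.BT.Tr T := Q192.BT.tr_univ T hT.uniqueArc
  have hdd : ∀ x y : T, Q192.BT.dd x y ≤ B * dist x y := by
    intro x y
    obtain ⟨E, h1, h2, h3, h4, h5⟩ := hbt x y
    refine le_trans ?_ h5
    exact diam_mono (fun z hz => hz E h2.isPreconnected h3 h4) h1.isBounded
  obtain ⟨p⟩ : Nonempty T := inferInstance
  obtain ⟨f, hf⟩ := Q192.BT.exists_limit hTr p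
  refine ⟨f, ?_, ?_⟩
  · intro x y
    rw [Real.dist_eq]
    have h1 := Q192.BT.f_lip hTr hf x y
    have h2 := hdd x y
    have h3 : 0 ≤ B * dist x y := mul_nonneg (by linarith) dist_nonneg
    have h4 : (0:ℝ) ≤ dist x y := dist_nonneg
    linarith
  · intro W hW hW0 x hx
    have key : ∀ y ∈ chainComponent (diam W) (f ⁻¹' W) x,
        dist x y ≤ 4000 * (3200 * B + 1) * diam W := by
      rintro y ⟨n, z, rfl, rfl, hz, hd⟩
      exact Q192.BT.chain_light hTr hf hdd hB hW hW0 hz hd
    have key2 : ∀ y ∈ chainComponent (diam W) (f ⁻¹' W) x,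
        ∀ y' ∈ chainComponent (diam W) (f ⁻¹' W) x,
        dist y y' ≤ 8000 * (3200 * B + 1) * diam W := by
      intro y hy y' hy'
      have h1 := key y hy
      have h2 := key y' hy'
      have h3 := dist_triangle_left y y' x
      linarith
    exact ⟨Metric.isBounded_iff.2 ⟨_, fun y hy y' hy' => key2 y hy y' hy'⟩,
      diam_le_of_forall_dist_le (by positivity) key2⟩

end Pool.Agent.Results.MP_f6f14e_gt.LipschitzLightMap
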